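import Pool.Agent.W622.ETG.Stm

set_option autoImplicit false

/-! ELG-STAR: components of `A_b` versus a good block `X` (general `e`). -/

namespace Pool.Agent.W196.ELG

open Pool.Agent.W622.ETG Module

section
variable {V : Type} [AddCommGroup V] [Module (ZMod 2) V] [Finite V]

lemma span_pair_le {p g : Dl V} {Z : DSub V} (hp : p ∈ Z) (hg : g ∈ Z) :
    Submodule.span (ZMod 2) ({p, g} : Set (Dl V)) ≤ Z := by
  rw [Submodule.span_le]
  intro x hx
  simp only [Set.mem_insert_iff, Set.mem_singleton_iff] at hx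
  rcases hx with rfl | rfl
  · exact hp
  · exact hg

/-- every cone lies in a maximal cone -/
lemma exists_maxCone (e : V) (A : Fam V) (Z : DSub V) (hZ : IsCone e A Z) :
    ∃ M, MaxCone e A M ∧ Z ≤ M := by
  obtain ⟨M, hM, hmax⟩ :=
    Set.Finite.exists_le_maximal (Set.toFinite {Y : DSub V | IsCone e A Y})
      (show Z ∈ {Y : DSub V | IsCone e A Y} from hZ)
  refine ⟨M, ⟨hmax.prop, ?_⟩, hM⟩
  intro Y hY hMY
  exact le_antisymm (hmax.le_of_ge hY hMY) hMY

end

theorem t_STAR (hLU : S_LU) (hDEC : S_DEC) (hSPLIT : S_SPLIT) (hFULL : S_FULL)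
    (hCFULL : S_CFULL) (hMCD : S_MCD) (_hOM : S_OM) : S_STAR := by
  intro V _ _ _ e A X b s hMC hgood hb hs
  have hA : EFam e A := hMC.ef
  have hB : EFam e (res A (ann b)) := hA.res _
  have hlu : LU e (res A X) := hLU V e (res A X) (hA.res X) (hMC.her.res X)
  obtain ⟨hd1, hd2, hd3⟩ := hDEC V e A X hA
  -- the part of a member of `A_b` is in `A_b`
  have hpart : ∀ ζ ∈ res A (ann b), ∃ π ∈ res A (ann b), sp π ≤ X ∧ sp π ≤ sp ζ ∧
      (∀ v, ζ v ∈ X → π v = ζ v) := by
    intro ζ hζ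
    obtain ⟨π, hπ⟩ := hd1 hlu hgood.2 ζ hζ.1
    obtain ⟨e1, e2, e3⟩ := hd3 ζ hζ.1 π hπ
    have h1 := mem_res'.mp hπ.1
    refine ⟨π, ?_, h1.2, e2, e3⟩
    rw [mem_res']
    exact ⟨h1.1, e2.trans (mem_res'.mp hζ).2⟩
  constructor
  · intro Z hZ
    by_cases hdis : Disjoint Z X
    · exact Or.inr hdis
    left
    obtain ⟨h, hhZ, hhX, hh0⟩ : ∃ h : Dl V, h ∈ Z ∧ h ∈ X ∧ h ≠ 0 := by
      by_contra hc
      push Not at hc
      apply hdis
      rw [Submodule.disjoint_def]
      exact hc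
    rcases hs.2.2 Z hZ with ⟨ω, hω, rfl⟩ | ⟨q, hq3, hqZ, hq0, hqe, hqg⟩
    · obtain ⟨c, hc⟩ := hhZ
      obtain ⟨π, hπB, hπX, hπω, hπv⟩ := hpart ω hω.1
      have h1 : π c = h := by rw [hπv c (by rw [hc]; exact hhX), hc]
      rcases hω.2.2 π hπB hπω with h2 | h2
      · exfalso
        rw [h2] at h1
        exact hh0 h1.symm
      · rw [← h2]; exact hπX
    · -- cone
      have hcone : Cone e A Z q := ⟨hq3, hqZ, hq0, hqe, fun g hg => (hqg g hg).1⟩
      rcases hgood.1 with hmax | ⟨ω, hprim, hXω, hnc⟩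
      · obtain ⟨M, hM, hZM⟩ := exists_maxCone e A Z ⟨q, hcone⟩
        by_cases hMX : M = X
        · rw [← hMX]; exact hZM
        · exfalso
          have hdis2 := hMCD V e A M X hMC hM hmax hMX
          rw [Submodule.disjoint_def] at hdis2
          exact hh0 (hdis2 h (hZM hhZ) hhX)
      · exfalso
        obtain ⟨g, hg, v, hv⟩ := hCFULL V e A Z q h hcone hhZ
        obtain ⟨π, hπB, hπX, hπω, hπv⟩ := hpart (wd e q g) (hqg g hg)
        have h1 : π v = h := by rw [hπv v (by rw [hv]; exact hhX), hv]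
        have hπ1 : π ∈ A := (mem_res'.mp hπB).1
        have hπ2 : sp π ≤ sp ω := by rw [← hXω]; exact hπX
        rcases hprim.2.2 π hπ1 hπ2 with h2 | h2
        · rw [h2] at h1
          exact hh0 h1.symm
        · apply hnc Z ⟨q, hcone⟩
          rw [hXω, ← h2]
          exact hπω.trans ((sp_wd_le q g).trans (span_pair_le hqZ hg))
  · -- second part
    have ind : ∀ (n : ℕ) (t : Set (DSub V)), t ⊆ s → t.ncard = n → (∀ Z ∈ t, Disjoint Z X) →
        ∀ π ∈ res (res A (ann b)) (sSup t), sp π ≤ X → π = 0 := by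
      intro n
      induction n with
      | zero =>
        intro t ht hn _ π hπ _
        have h0 : t = ∅ := (Set.ncard_eq_zero (Set.toFinite t)).mp hn
        rw [h0, sSup_empty, res_bot] at hπ
        exact (Submodule.mem_bot _).mp hπ
      | succ n ih =>
        intro t ht hn hdis π hπ hπX
        have hne : t.Nonempty := by
          rw [Set.nonempty_iff_ne_empty]
          rintro rfl
          simp at hn
        obtain ⟨Z0, hZ0⟩ := hne
        obtain ⟨-, -, hc⟩ := hSPLIT V e _ s t hB hs ht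
        obtain ⟨e1, e2, -⟩ := hSPLIT V e _ t {Z0} (hB.res _) hc (Set.singleton_subset_iff.mpr hZ0)
        rw [sSup_singleton] at e1 e2
        rw [e1] at hπ
        obtain ⟨α, hα, β, hβ, hαβ⟩ := Submodule.mem_sup.mp hπ
        have hα' := mem_res'.mp hα
        have hβ' := mem_res'.mp hβ
        have hsp : sp (α + β) = sp α ⊔ sp β :=
          sp_add ((hB.res _) α hα'.1) ((hB.res _) β hβ'.1)
            (e2.mono hα'.2 hβ'.2)
        have hα0 : α = 0 := by
          rw [← sp_eq_bot, ← le_bot_iff]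
          have h1 : sp α ≤ X := by
            refine le_trans ?_ hπX
            rw [← hαβ, hsp]
            exact le_sup_left
          exact (hdis Z0 hZ0) hα'.2 h1
        have hπβ : π = β := by rw [← hαβ, hα0, zero_add]
        rw [hπβ] at hπX ⊢
        apply ih (t \ {Z0}) (Set.diff_subset.trans ht)
        · rw [Set.ncard_diff_singleton_of_mem hZ0, hn]; rfl
        · intro Z hZ
          exact hdis Z hZ.1
        · rw [mem_res']
          exact ⟨(mem_res'.mp hβ'.1).1, hβ'.2⟩
        · exact hπX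
    set t : Set (DSub V) := {Z | Z ∈ s ∧ Disjoint Z X} with ht
    have hts : t ⊆ s := fun Z hZ => hZ.1
    rw [Submodule.disjoint_def]
    intro h hht hhX
    by_contra hh0
    obtain ⟨-, -, hc⟩ := hSPLIT V e _ s t hB hs hts
    obtain ⟨ω, hω, c, hωc⟩ := hFULL V e _ t h (hB.res _) hc hht
    obtain ⟨π, hπB, hπX, hπω, hπv⟩ := hpart ω hω.1
    have h1 : π c = h := by rw [hπv c (by rw [hωc]; exact hhX), hωc]
    have h2 : π = 0 := by
      apply ind _ t hts rfl (fun Z hZ => hZ.2) π
      · rw [mem_res']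
        exact ⟨hπB, hπω.trans (mem_res'.mp hω).2⟩
      · exact hπX
    rw [h2] at h1
    exact hh0 h1.symm

end Pool.Agent.W196.ELG
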